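import Pool.Agent.Run7.h106.AX.KnotG

/-!
Lattice knots whose edges carry weights depending on their directions: analytic continuation of the
generating functions beyond their own circles of convergence, uniformly in the weights.
-/

set_option autoImplicit false

namespace Pool.Agent.Results.MP_aea6d5_co.AnisotropicKnotsContinuation

open Finset Filter Topology KN

/-- The weight of a closed word: the product of `α (j)` over its edges, `j` the axis of the edge. -/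
noncomputable def weight (α : Fin 3 → ℝ) (w : List Dir) : ℝ := (w.map (fun d => α (ax d))).prod

/-- The weighted number of polygons of length `n` in `ℤ³`, up to translation, whose knot type is in
the class `Q` (every polygon of length `n` is given by `2n` closed words in `K Q n`). -/
noncomputable def P (Q : List Dir → Prop) (α : Fin 3 → ℝ) (n : ℕ) : ℝ :=
  (∑ w ∈ K Q n, weight α w) / (2 * n)

/-- The growth rate: the limit superior of `P(n)^(1/n)` over the even `n`. -/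
noncomputable def rate (Q : List Dir → Prop) (α : Fin 3 → ℝ) : ℝ :=
  limsup (fun j : ℕ => (P Q α (2 * j)) ^ (1 / (2 * j : ℝ))) atTop

/-- The weights of the three axes are in `[exp (-h), exp h]`. -/
def Near (h : ℝ) (α : Fin 3 → ℝ) : Prop := ∀ j, Real.exp (-h) ≤ α j ∧ α j ≤ Real.exp h

/-- `cos (2 arg z)` for `z ≠ 0` -/
noncomputable def cos2 (z : ℂ) : ℝ := (z ^ 2).re / ‖z‖ ^ 2

/-- The domain `|z| < (1 + δ (1 - cos (2 arg z))) / ν`: the disc `|z| < 1 / ν` enlarged at all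
points of the circle `|z| = 1 / ν` except `±1 / ν`. -/
def Dom (ν δ : ℝ) : Set ℂ := {z | ν * ‖z‖ < 1 + δ * (1 - cos2 z)}

/-- `F` is a holomorphic extension of the power series with coefficients `u n` from the disc
`|z| < 1/ν` to `Dom ν δ`, whose derivative is bounded by `C` plus its value at the point
`(1 - δ (1 - cos (2 arg z))) / ν` of the interval `(0, 1/ν)`. -/
def Extends (ν δ C : ℝ) (u : ℕ → ℝ) (F : ℂ → ℂ) : Prop :=
  DifferentiableOn ℂ F (Dom ν δ) ∧
    (∀ z : ℂ, ν * ‖z‖ < 1 → HasSum (fun n => (u n : ℂ) * z ^ n) (F z)) ∧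
    ∀ z ∈ Dom ν δ, z ≠ 0 → cos2 z < 1 →
      ‖deriv F z‖ ≤ C + ‖deriv F (((1 - δ * (1 - cos2 z)) / ν : ℝ) : ℂ)‖

/-- **Theorem.** Let `Q` be a class of knot types (for instance one knot type) and let `μ = gr Q` be
the growth rate of the numbers of polygons of class `Q`. There are `h₀ > 0`, `κ > 1`, `δ > 0` and
`C` with the following properties.
(1) For all weights `α` of the three axes in `[exp (-h₀), exp h₀]` the growth rate `ν = rate Q α` of
the weighted numbers `P Q α n` is in `[μ/κ, κ μ]`, and the generating function `∑ P Q α n z^n`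
extends holomorphically from the disc `|z| < 1/ν` to the open connected set `Dom ν δ`, which
contains all points of the circle `|z| = 1/ν` except `1/ν` and `-1/ν`, and the extension `F`
satisfies `|F'(z)| ≤ C + |F'(x)|`, `x = (1 - δ (1 - cos (2 arg z))) / ν`, for `z² ∉ [0, ∞)`.
(2) The same holds for every `ν` in `[μ/κ, κ μ]` for which the series converges for
`0 ≤ z < 1/ν`.
The numbers `δ` and `C` do not depend on `α` and `ν`. -/
theorem result :
    (∀ Q : List Dir → Prop, KClass Q → (∃ w, SAP w ∧ Q w) →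
      ∃ h₀ : ℝ, 0 < h₀ ∧ ∃ κ : ℝ, 1 < κ ∧ ∃ δ : ℝ, 0 < δ ∧ δ ≤ 1 / 4 ∧ ∃ C : ℝ,
      (∀ α : Fin 3 → ℝ, Near h₀ α → gr Q / κ ≤ rate Q α ∧ rate Q α ≤ κ * gr Q ∧
        ∃ F : ℂ → ℂ, Extends (rate Q α) δ C (P Q α) F) ∧
      ∀ ν : ℝ, gr Q / κ ≤ ν → ν ≤ κ * gr Q →
        (IsOpen (Dom ν δ) ∧ IsPreconnected (Dom ν δ) ∧ (∀ z : ℂ, ν * ‖z‖ < 1 → z ∈ Dom ν δ) ∧
          ∀ z : ℂ, ν * ‖z‖ = 1 → z ≠ ((1 / ν : ℝ) : ℂ) → z ≠ ((-(1 / ν) : ℝ) : ℂ) → z ∈ Dom ν δ) ∧
        ∀ α : Fin 3 → ℝ, Near h₀ α →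
          (∀ x : ℝ, 0 ≤ x → ν * x < 1 → Summable (fun n => P Q α n * x ^ n)) →
          ∃ F : ℂ → ℂ, Extends ν δ C (P Q α) F) ∧
    (∀ k : List V, KClass (KT k)) ∧ KClass U ∧ ∃ w, SAP w ∧ U w := by
  refine ⟨fun Q hQ hne => ?_, GEN.kt_class, GEN.kt_class sq,
    ⟨sqw, c_sq.2.1, Or.inl (Same.refl _)⟩⟩
  obtain ⟨h₀, hh₀, κ, hκ, δ, hδ, hδ4, C, h1, h2⟩ := Run7.h106.AX.knots hQ hne
  refine ⟨h₀, hh₀, κ, hκ, δ, hδ, hδ4, C, fun α ha => ?_, fun ν hν1 hν2 => ?_⟩
  · obtain ⟨b1, b2, b3⟩ := h1 α ha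
    exact ⟨b1, b2, (h2 _ b1 b2).2 α ha b3⟩
  · obtain ⟨hν, h3⟩ := h2 ν hν1 hν2
    obtain ⟨d1, d2, d3, d4⟩ := Pool.Agent.N929.AC.dom_facts (s := 2) hδ hν (by norm_num)
    refine ⟨⟨d1, d2, d3, fun z hz z1 z2 => d4 z hz fun h3 => ?_⟩, fun α ha hS => h3 α ha hS⟩
    have hn : ‖z‖ = 1 / ν := by field_simp; linarith
    rw [hn] at h3
    rcases sq_eq_sq_iff_eq_or_eq_neg.1 h3 with h4 | h4
    · exact z1 h4
    · exact z2 (by rw [h4]; push_cast; rfl)

end Pool.Agent.Results.MP_aea6d5_co.AnisotropicKnotsContinuation
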