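import Pool.Agent.Run7.h647.DM.Kn

/-!
# Lattice knots attain their diameter at few sites

Lattice polygons in `ℤ³` of a given knot type (or class of knot types).  A site of a polygon is
*diametral* if its Euclidean distance from some other site of the polygon is the diameter of the
polygon.  The number of the diametral sites has exponential tails, uniformly in the length.

Proof.  Let `v` be a diametral site, `u` a partner of it, and `κ` the coordinate direction in which
`v - u` is largest.  One of the two edges of the polygon at `v` is perpendicular to `κ`.  It can be
pushed across the plaquette in the direction `κ`, since the two new sites are farther from `u` than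
the diameter; this does not change the knot type.  All this can be done at the same time for all the
diametral sites of a class.  The old polygon can be recovered: an end of a diameter of the new polygon
is a new site, which gives (up to a bounded number of choices) a diametral site `v` of the old polygon;
the old diameter is the largest distance of `v` from the sites of the new polygon which are below `v`
in the direction `κ`; and a site of the new polygon is new if and only if there is a site below it whose
distance from it is larger than the old diameter.
-/

set_option autoImplicit false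

namespace Pool.Agent.Results.MP_aea6d5_co.DiametralSites

open scoped Classical
open KN

/-- the squared Euclidean distance -/
def dist2 (v u : Z3) : ℤ := (v.1 - u.1) ^ 2 + (v.2.1 - u.2.1) ^ 2 + (v.2.2 - u.2.2) ^ 2

/-- the diametral sites of the polygon `w`: the sites whose distance from some site of `w` is the
diameter of `w` -/
def diametral (w : List Dir) : Set Z3 :=
  {v | v ∈ path w ∧ ∃ u ∈ path w, ∀ a ∈ path w, ∀ b ∈ path w, dist2 a b ≤ dist2 v u}

/-- the number of closed words of length `n` (polygons with a starting point and an orientation;
every polygon with `n` edges is counted `2 n` times) of class `Q` which have more than `X` diametral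
sites -/
noncomputable def crowded (Q : List Dir → Prop) (X : ℝ) (n : ℕ) : ℕ :=
  ((K Q n).filter (fun w => X < ((diametral w).ncard : ℝ))).card

/-- **Few diametral sites.** Let `Q` be a class of knot types of polygons in `ℤ³` which contains a
polygon (for instance `Q = KT k`, a single knot type), `a Q n` the number of the closed words of length
`n` of class `Q`, `pq Q n = a Q n / (2 n)` the number of polygons up to translation, and `gr Q` the
growth rate.

1. In the ensemble of all polygons of class `Q` with the weight `t ^ length`, where `t ≥ 1 / 6` and
the total weight is finite, the weight of the polygons which have more than `21000 * (1 + x)` diametral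
sites is at most `exp (-x)` times the total weight.  The constant does not depend on the knot type.

2. There are `C`, `δ` such that the same holds, with `C` for `21000`, among the polygons with `n`
edges, for every `n` with `pq Q n ≥ ((1 - δ) gr Q) ^ n`.

3. If `Q` is closed under connected sums (for instance the unknots `Q = U`), then this holds for
every `n`. -/
theorem result (Q : List Dir → Prop) (hQ : KClass Q) (hne : ∃ w, SAP w ∧ Q w) :
    (∀ t : ℝ, 1 / 6 ≤ t → Summable (fun n : ℕ => (a Q n : ℝ) * t ^ n) →
      ∀ x : ℝ, 0 ≤ x → ∑' n : ℕ, (crowded Q (21000 * (1 + x)) n : ℝ) * t ^ n ≤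
        Real.exp (-x) * ∑' n : ℕ, (a Q n : ℝ) * t ^ n) ∧
    (∃ C δ : ℝ, 1 < C ∧ 0 < δ ∧ δ < 1 ∧ ∀ n : ℕ, ((1 - δ) * gr Q) ^ n ≤ pq Q n →
      ∀ x : ℝ, 0 ≤ x → (crowded Q (C * (1 + x)) n : ℝ) ≤ Real.exp (-x) * (a Q n : ℝ)) ∧
    (CSum Q → ∃ C : ℝ, 1 < C ∧ ∀ (n : ℕ) (x : ℝ), 0 ≤ x →
      (crowded Q (C * (1 + x)) n : ℝ) ≤ Real.exp (-x) * (a Q n : ℝ)) := by
  refine ⟨?_, ?_, ?_⟩
  · intro t ht hs x hx
    exact Run7.h647.DM.gen_t Q (GEN.inv_of Q hQ) hx ht hs
  · obtain ⟨C, δ, h1, h2, h3, h4⟩ := Run7.h647.DM.gen_n Q hQ hne
    refine ⟨C, δ, h1, h2, h3, ?_⟩
    intro n hn x hx
    refine h4 n (hn.trans ?_) x hx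
    unfold pq
    rcases Nat.eq_zero_or_pos n with h | h
    · subst h
      simp
    · refine div_le_self (Nat.cast_nonneg _) ?_
      have : (1 : ℝ) ≤ n := by exact_mod_cast h
      linarith
  · intro hc
    obtain ⟨C, h1, h2⟩ := Run7.h647.DM.gen_all Q hQ hne hc
    exact ⟨C, h1, fun n x hx => h2 n x hx⟩

end Pool.Agent.Results.MP_aea6d5_co.DiametralSites
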