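import Pool.Agent.Run7.h738.EX.KnG

/-!
# Lattice knots have few sites near their supporting planes
-/

set_option autoImplicit false

namespace Pool.Agent.Results.MP_aea6d5_co.ExtremalSites

open scoped Classical
open KN Filter Topology Run7.h738.EX

/-- the scalar product of a site with the unit vector `d` -/
def height (d : Dir) (v : Z3) : ℤ := v.1 * (vec d).1 + v.2.1 * (vec d).2.1 + v.2.2 * (vec d).2.2

/-- the sites of the polygon `w` whose distance from the supporting plane of `w` with outer normal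
`d` is at most `y` (for `y = 0`: the sites in the supporting plane) -/
def nearPlane (d : Dir) (y : ℕ) (w : List Dir) : Set Z3 :=
  {v | v ∈ path w ∧ ∀ u ∈ path w, height d u ≤ height d v + y}

/-- the number of closed words of length `n` (polygons with a starting point and an orientation;
every polygon with `n` edges is counted `2 n` times) of class `Q` which have more than `X` sites
within distance `y` of the supporting plane with outer normal `d` -/
noncomputable def crowded (Q : List Dir → Prop) (d : Dir) (y : ℕ) (X : ℝ) (n : ℕ) : ℕ :=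
  ((K Q n).filter (fun w => X < ((nearPlane d y w).ncard : ℝ))).card

theorem summ (Q : List Dir → Prop) (hQ : KClass Q) (hne : ∃ w, SAP w ∧ Q w) (t : ℝ) (ht0 : 0 ≤ t)
    (ht : t < 1 / gr Q) : Summable (fun n : ℕ => (a Q n : ℝ) * t ^ n) := by
  obtain ⟨g1, -, g2⟩ := gr_bounds Q hQ hne
  have hg0 : 0 < gr Q := by linarith
  rw [lt_div_iff₀ hg0] at ht
  set g := gr Q with hg
  obtain ⟨τ, hτ0, hτ⟩ : ∃ τ : ℝ, 0 < τ ∧ (1 + τ) * g * t < 1 := by
    rcases eq_or_lt_of_le ht0 with h | h
    · exact ⟨1, one_pos, by rw [← h]; norm_num⟩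
    · refine ⟨(1 - t * g) / 2, by linarith, ?_⟩
      have h1 : 0 < t * g := mul_pos h hg0
      nlinarith
  obtain ⟨C, hC⟩ := GEN.upper S_five_proof Q (by rw [← hg]; exact hg0) τ hτ0
  have h1 : Summable (fun n : ℕ => C * ((1 + τ) * g * t) ^ n) :=
    (summable_geometric_of_lt_one (by positivity) hτ).mul_left C
  refine Summable.of_nonneg_of_le (fun n => by positivity) (fun n => ?_) h1
  calc (a Q n : ℝ) * t ^ n ≤ (C * ((1 + τ) * g) ^ n) * t ^ n :=
        mul_le_mul_of_nonneg_right (hC n) (by positivity)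
    _ = _ := by rw [mul_pow _ t]; ring

/-- **Few sites near the supporting planes.** Let `Q` be a class of knot types of polygons in `ℤ³`
which contains a polygon (for instance `Q = KT k`, a single knot type), `a Q n` the number of the
closed words of length `n` of class `Q`, `pq Q n = a Q n / (2 n)` the number of polygons up to
translation, and `gr Q` the growth rate.

1. In the ensemble of all polygons of class `Q` with the weight `t ^ length`, where `t ≥ 1 / 6` and
the total weight is finite (which is the case for `t < 1 / gr Q`), the weight of the polygons which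
have more than `K ^ (1 + y) * (1 + x)` sites within distance `y` of the supporting plane with outer
normal `d` is at most `exp (-x)` times the total weight. Here `K = 20 * 7 ^ 6` does not depend on
the knot type.

2. There are `C`, `δ` such that the same holds, with `C` for `K`, among the polygons with `n` edges,
for every `n` with `pq Q n ≥ ((1 - δ) gr Q) ^ n`.

3. If `Q` is closed under connected sums (for instance the unknots `Q = U`), then this holds for
every `n`. -/
theorem result (Q : List Dir → Prop) (hQ : KClass Q) (hne : ∃ w, SAP w ∧ Q w) :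
    ((∀ t : ℝ, 0 ≤ t → t < 1 / gr Q → Summable (fun n : ℕ => (a Q n : ℝ) * t ^ n)) ∧
      ∀ t : ℝ, 1 / 6 ≤ t → Summable (fun n : ℕ => (a Q n : ℝ) * t ^ n) →
        ∀ (d : Dir) (y : ℕ) (x : ℝ), 0 ≤ x →
        ∑' n : ℕ, (crowded Q d y ((20 * 7 ^ 6) ^ (1 + y) * (1 + x)) n : ℝ) * t ^ n ≤
          Real.exp (-x) * ∑' n : ℕ, (a Q n : ℝ) * t ^ n) ∧
    (∃ C δ : ℝ, 1 < C ∧ 0 < δ ∧ δ < 1 ∧ ∀ n : ℕ, ((1 - δ) * gr Q) ^ n ≤ pq Q n →
      ∀ (d : Dir) (y : ℕ) (x : ℝ), 0 ≤ x →
        (crowded Q d y (C ^ (1 + y) * (1 + x)) n : ℝ) ≤ Real.exp (-x) * (a Q n : ℝ)) ∧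
    (CSum Q → ∃ C : ℝ, 1 < C ∧ ∀ (n : ℕ) (d : Dir) (y : ℕ) (x : ℝ), 0 ≤ x →
      (crowded Q d y (C ^ (1 + y) * (1 + x)) n : ℝ) ≤ Real.exp (-x) * (a Q n : ℝ)) := by
  refine ⟨⟨summ Q hQ hne, ?_⟩, ?_, ?_⟩
  · intro t ht hs d y x hx
    exact tail_t Q (GEN.inv_of Q hQ) d y hx ht hs
  · obtain ⟨C, δ, h1, h2, h3, h4⟩ := tail_n Q hQ hne
    refine ⟨C, δ, h1, h2, h3, ?_⟩
    intro n hn d y x hx
    refine h4 n (hn.trans ?_) d y x hx
    unfold pq
    rcases Nat.eq_zero_or_pos n with h | h
    · subst h
      simp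
    · refine div_le_self (Nat.cast_nonneg _) ?_
      have : (1 : ℝ) ≤ n := by exact_mod_cast h
      linarith
  · intro hc
    obtain ⟨C, h1, h2⟩ := tail_all Q hQ hne hc
    exact ⟨C, h1, fun n d y x hx => h2 n d y x hx⟩

end Pool.Agent.Results.MP_aea6d5_co.ExtremalSites
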