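import Pool.Agent.Run7.h130.PL.Knot

/-!
# Lattice knots: the limit points of `p_n / (μ^n n^β)`
-/

set_option autoImplicit false

namespace Pool.Agent.Results.MP_aea6d5_co.LimitPoints

open Filter Topology KN

/-- `p_n / (μ^n n^β)` at `n = 2 k`, where `p_n = pq Q n` is the number of the `n`-step polygons whose
knot type is in the class `Q`, and `μ = gr Q` -/
noncomputable def X (Q : List Dir → Prop) (β : ℝ) (k : ℕ) : ℝ :=
  pq Q (2 * k) / gr Q ^ (2 * k) / ((2 * k : ℕ) : ℝ) ^ β

/-- `log (p_n / μ^n) / log n` at `n = 2 k` -/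
noncomputable def E (Q : List Dir → Prop) (k : ℕ) : ℝ :=
  Real.log (pq Q (2 * k) / gr Q ^ (2 * k)) / Real.log ((2 * k : ℕ) : ℝ)

/-- the limit points of a real sequence in `[-∞, ∞]` -/
def Lim (x : ℕ → ℝ) : Set EReal := {t | MapClusterPt t atTop (fun n => ((x n : ℝ) : EReal))}

/-- the lower limit -/
noncomputable def lo (x : ℕ → ℝ) : EReal := liminf (fun n => ((x n : ℝ) : EReal)) atTop

/-- the upper limit -/
noncomputable def hi (x : ℕ → ℝ) : EReal := limsup (fun n => ((x n : ℝ) : EReal)) atTop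

/-- `t` is a limit point of `x`, near which there are only countably many limit points -/
def Thin (x : ℕ → ℝ) (t : ℝ) : Prop :=
  (t : EReal) ∈ Lim x ∧ ∃ δ : ℝ, 0 < δ ∧ {u : ℝ | (u : EReal) ∈ Lim x ∧ |u - t| < δ}.Countable

/-- **Theorem.** Let `Q` be a class of knot types (for instance one knot type) which contains the knot
type of some lattice polygon, `p_n = pq Q n` the number of polygons of length `n` in `ℤ³` whose knot
type is in `Q`, and `μ = gr Q`.  Only even `n` are considered.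
(1) For every real `β` the limit points of `p_n / (μ^n n^β)` in `[0, ∞]` are all the numbers between
the lower and the upper limit.
(2) The same holds for the limit points of `log (p_n / μ^n) / log n` in `[-∞, ∞]`; if `β` lies
strictly between the lower and the upper limit of these exponents, then every element of `[0, ∞]` is a
limit point of `p_n / (μ^n n^β)`.
(3) If `φ` is monotone, `log n ≤ φ n`, `φ (2 n) ≤ D φ n`, `φ n / n → 0` and `p_n ≤ μ^n exp (φ n)` for
large `n`, then there is `K` such that for every `β` and every real `B > 0` strictly between the limits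
of (1) infinitely many even `n` satisfy
`|p_n / (μ^n n^β) - B| ≤ K B (1 + |β|) (φ n / n)^(1/2)`.
(4) `p_n / (μ^n n^β)` converges to the real number `A` if and only if `A` is one of its limit points
and only countably many of them lie in some neighbourhood of `A`.
(5) For `A > 0`, `p_n / (μ^n n^β)` converges to `A` if and only if `(1/n) log p_n → log μ` and
`n^β p_{2n} / p_n² → 2^β / A`. -/
theorem result (Q : List Dir → Prop) (hQ : KClass Q) (hne : ∃ w, SAP w ∧ Q w) :
    (∀ β : ℝ, Lim (X Q β) = Set.Icc (lo (X Q β)) (hi (X Q β)) ∧ 0 ≤ lo (X Q β)) ∧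
    (Lim (E Q) = Set.Icc (lo (E Q)) (hi (E Q)) ∧
      ∀ β : ℝ, lo (E Q) < β → (β : EReal) < hi (E Q) → Lim (X Q β) = Set.Icc 0 ⊤) ∧
    (∀ φ : ℕ → ℝ, Monotone φ → (∀ n : ℕ, 2 ≤ n → Real.log n ≤ φ n) →
        (∃ D : ℝ, ∀ n : ℕ, 2 ≤ n → φ (2 * n) ≤ D * φ n) →
        Tendsto (fun n : ℕ => φ n / n) atTop (𝓝 0) →
        (∀ᶠ k : ℕ in atTop, pq Q (2 * k) ≤ gr Q ^ (2 * k) * Real.exp (φ (2 * k))) →
      ∃ K : ℝ, 0 < K ∧ ∀ β B : ℝ, 0 < B → lo (X Q β) < B → (B : EReal) < hi (X Q β) →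
        ∃ᶠ k : ℕ in atTop,
          |X Q β k - B| ≤ K * B * (1 + |β|) * Real.sqrt (φ (2 * k) / (2 * k))) ∧
    (∀ β A : ℝ, Tendsto (X Q β) atTop (𝓝 A) ↔ Thin (X Q β) A) ∧
    ∀ β A : ℝ, 0 < A → (Tendsto (X Q β) atTop (𝓝 A) ↔
      Tendsto (fun k : ℕ => Real.log (pq Q (2 * k)) / (2 * k)) atTop (𝓝 (Real.log (gr Q))) ∧
      Tendsto (fun k : ℕ => (2 * k : ℝ) ^ β * (pq Q (4 * k) / pq Q (2 * k) ^ 2)) atTop
        (𝓝 (2 ^ β / A))) := by
  obtain ⟨g1, -, g2⟩ := gr_bounds Q hQ hne
  have hμ : 0 < gr Q := by linarith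
  have hX : ∀ β, X Q β = Run7.h130.PL.amp (Run7.h130.PL.Knot.rr Q) β 0 := fun β => rfl
  have hE : E Q = Run7.h130.PL.ex (Run7.h130.PL.Knot.rr Q) 0 := rfl
  obtain ⟨φ0, R0, hφ0⟩ := Pool.Agent.N226.KZ.exists_rate hQ hne
  obtain ⟨C0, -, P0⟩ := Run7.h130.PL.Knot.step hQ hne R0 hφ0
  have hpos := Run7.h130.PL.Knot.rr_pos hQ hne
  refine ⟨fun β => ⟨?_, ?_⟩, ⟨?_, fun β h1 h2 => ?_⟩, ?_, fun β A => ?_, fun β A hA => ?_⟩
  · rw [hX]
    exact Run7.h130.PL.amp_Cl (P0 β)
  · rw [hX]
    exact Run7.h130.PL.lo_nonneg ((Run7.h130.PL.amp_pos (P0 β)).mono fun _ h => h.le)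
  · rw [hE]
    exact Run7.h130.PL.ex_Cl hpos fun β => ⟨_, P0 β⟩
  · rw [hE] at h1 h2
    obtain ⟨a1, a2⟩ := Run7.h130.PL.amp_osc' hpos h1 h2
    rw [hX]
    have := Run7.h130.PL.amp_Cl (P0 β)
    rw [a1, a2] at this
    exact this
  · intro φ h1 h2 h3 h4 h5
    obtain ⟨C, hC, P⟩ := Run7.h130.PL.Knot.step hQ hne ⟨h1, h2, h3, h4⟩ h5
    refine ⟨2 * (2 * C + 4), by positivity, fun β B hB hlo hhi => ?_⟩
    rw [hX] at hlo hhi ⊢
    have h6 : ∀ᶠ k : ℕ in atTop, 1 / (2 * (k : ℝ)) ≤ Real.sqrt (φ (2 * k) / (2 * k)) := by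
      have t : Tendsto (fun k : ℕ => Real.log ((2 * k : ℕ) : ℝ)) atTop atTop :=
        Real.tendsto_log_atTop.comp (tendsto_natCast_atTop_atTop.comp
          (tendsto_id.const_mul_atTop' (show 0 < 2 by norm_num)))
      filter_upwards [t.eventually_ge_atTop 1, eventually_ge_atTop 1] with k hk1 hk2
      have hk : (1 : ℝ) ≤ k := by exact_mod_cast hk2
      have h7 := h2 (2 * k) (by omega)
      apply Real.le_sqrt_of_sq_le
      rw [one_div, inv_pow, pow_two, mul_inv, div_eq_mul_inv]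
      have h8 : (2 * (k : ℝ))⁻¹ ≤ φ (2 * k) := by
        have : (2 * (k : ℝ))⁻¹ ≤ 1 := inv_le_one_of_one_le₀ (by linarith)
        linarith
      exact mul_le_mul_of_nonneg_right h8 (by positivity)
    refine ((Run7.h130.PL.attained' (P β) hB hlo hhi).and_eventually h6).mono ?_
    rintro k ⟨h7, h8⟩
    refine h7.trans ?_
    rw [Run7.h130.PL.Knot.nn_cast]
    have hβ := abs_nonneg β
    have h9 : Real.sqrt ((3 + |β|) * (φ (2 * k) / (2 * k))) ≤
        (2 + |β|) * Real.sqrt (φ (2 * k) / (2 * k)) := by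
      rw [Real.sqrt_mul (by positivity)]
      refine mul_le_mul_of_nonneg_right ?_ (Real.sqrt_nonneg _)
      apply Real.sqrt_le_iff.2
      constructor
      · positivity
      · nlinarith
    have h10 : 2 * |β| / (2 * (k : ℝ)) ≤ 2 * |β| * Real.sqrt (φ (2 * k) / (2 * k)) := by
      rw [div_eq_mul_one_div]
      gcongr
    have h11 := Real.sqrt_nonneg (φ (2 * k) / (2 * k))
    calc 2 * B * (C * Real.sqrt ((3 + |β|) * (φ (2 * k) / (2 * k))) + 2 * |β| / (2 * (k : ℝ))) ≤
          2 * B * (C * ((2 + |β|) * Real.sqrt (φ (2 * k) / (2 * k))) +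
            2 * |β| * Real.sqrt (φ (2 * k) / (2 * k))) := by gcongr
      _ = 2 * B * Real.sqrt (φ (2 * k) / (2 * k)) * (C * (2 + |β|) + 2 * |β|) := by ring
      _ ≤ 2 * B * Real.sqrt (φ (2 * k) / (2 * k)) * ((2 * C + 4) * (1 + |β|)) := by
          gcongr
          nlinarith
      _ = _ := by ring
  · rw [hX]
    exact Run7.h130.PL.tendsto_iff (Run7.h130.PL.amp_Cl (P0 β)) A
  · rw [hX, Run7.h130.PL.Knot.iff_double hQ hne β hA]
    refine and_congr ?_ ?_
    · have e : ∀ᶠ k : ℕ in atTop, Real.log (pq Q (2 * k)) / (2 * k) =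
          Real.log (Run7.h130.PL.Knot.rr Q (2 * k)) / (2 * k) + Real.log (gr Q) := by
        filter_upwards [class_pos Q hQ hne, eventually_ge_atTop 1] with k h1 h2
        have hk : (0 : ℝ) < k := by exact_mod_cast h2
        unfold Run7.h130.PL.Knot.rr
        rw [Real.log_div h1.ne' (pow_pos hμ _).ne', Real.log_pow]
        push_cast
        field_simp
        ring
      rw [tendsto_congr' e]
      constructor
      · intro h
        have := h.add_const (Real.log (gr Q))
        rwa [zero_add] at this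
      · intro h
        have := h.add_const (-Real.log (gr Q))
        rw [add_neg_cancel] at this
        refine this.congr fun k => ?_
        ring
    · refine tendsto_congr fun k => ?_
      ring

end Pool.Agent.Results.MP_aea6d5_co.LimitPoints
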